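import Mathlib

set_option autoImplicit false

/-! Gauss diagrams of welded string links, up to self-crossing change. -/

namespace Pool.Agent.H394Z.WSL

/-- A point of the `n` strands: the number of the strand and the position along it (only the order
of the positions matters). -/
abbrev Pt (n : ℕ) : Type := Fin n × ℤ

/-- An arrow of a Gauss diagram, recording one classical crossing: the point of the overpassing
strand (`tail`), the point of the underpassing strand (`head`) and the sign of the crossing. -/
structure Arrow (n : ℕ) where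
  tail : Pt n
  head : Pt n
  sign : ℤ
  deriving DecidableEq

/-- A Gauss diagram on `n` strands: finitely many arrows with signs `±1` and pairwise distinct
endpoints. -/
structure Gauss (n : ℕ) where
  arrows : Finset (Arrow n)
  sign : ∀ a ∈ arrows, a.sign = 1 ∨ a.sign = -1
  tail_ne_head : ∀ a ∈ arrows, ∀ b ∈ arrows, a.tail ≠ b.head
  ends_ne : ∀ a ∈ arrows, ∀ b ∈ arrows, a ≠ b → a.tail ≠ b.tail ∧ a.head ≠ b.head

/-- The point `w` lies on the strand of `u`, strictly between the positions of `u` and `v`. -/
def Between {n : ℕ} (u v w : Pt n) : Prop :=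
  w.1 = u.1 ∧ min u.2 v.2 < w.2 ∧ w.2 < max u.2 v.2

/-- The points `u`, `v` lie on the same strand and no endpoint of an arrow of `D` lies strictly
between them. -/
def Gauss.Adjacent {n : ℕ} (D : Gauss n) (u v : Pt n) : Prop :=
  u.1 = v.1 ∧ ∀ a ∈ D.arrows, ¬ Between u v a.tail ∧ ¬ Between u v a.head

/-- Isotopy: `D'` is obtained from `D` by an increasing reparametrisation of each strand. -/
def Reparam {n : ℕ} (D D' : Gauss n) : Prop :=
  ∃ φ : Fin n → ℤ → ℤ, (∀ i, StrictMono (φ i)) ∧ D'.arrows = D.arrows.image fun a =>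
    ⟨(a.tail.1, φ a.tail.1 a.tail.2), (a.head.1, φ a.head.1 a.head.2), a.sign⟩

/-- The first Reidemeister move: delete an arrow with adjacent endpoints. -/
def Reid1 {n : ℕ} (D D' : Gauss n) : Prop :=
  ∃ a ∈ D.arrows, D.Adjacent a.tail a.head ∧ D'.arrows = D.arrows \ {a}

/-- The second Reidemeister move: delete two arrows of opposite signs with adjacent tails and
adjacent heads. -/
def Reid2 {n : ℕ} (D D' : Gauss n) : Prop :=
  ∃ a ∈ D.arrows, ∃ b ∈ D.arrows, a.sign = -b.sign ∧ D.Adjacent a.tail b.tail ∧
    D.Adjacent a.head b.head ∧ D'.arrows = D.arrows \ {a, b}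

/-- `1` if the position of `u` comes before the position of `v`, and `-1` otherwise. -/
def ord {n : ℕ} (u v : Pt n) : ℤ := if u.2 < v.2 then 1 else -1

/-- The third Reidemeister move: for arrows `x` (top to middle), `y` (top to bottom) and `z`
(middle to bottom) whose endpoints are adjacent in pairs on the top, middle and bottom pieces of
strand, and such that the sign of an arrow times the order of the pair of endpoints of the other
two arrows is the same for the three arrows, exchange the two endpoints on each piece. -/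
def Reid3 {n : ℕ} (D D' : Gauss n) : Prop :=
  ∃ x ∈ D.arrows, ∃ y ∈ D.arrows, ∃ z ∈ D.arrows, x ≠ y ∧ x ≠ z ∧ y ≠ z ∧
    D.Adjacent x.tail y.tail ∧ D.Adjacent x.head z.tail ∧ D.Adjacent y.head z.head ∧
    z.sign * ord x.tail y.tail = y.sign * ord x.head z.tail ∧
    z.sign * ord x.tail y.tail = x.sign * ord y.head z.head ∧
    D'.arrows = (D.arrows \ {x, y, z}) ∪
      {⟨y.tail, z.tail, x.sign⟩, ⟨x.tail, z.head, y.sign⟩, ⟨x.head, y.head, z.sign⟩}

/-- Overcrossings commute: exchange two adjacent tails. -/
def OverCommute {n : ℕ} (D D' : Gauss n) : Prop :=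
  ∃ x ∈ D.arrows, ∃ y ∈ D.arrows, x ≠ y ∧ D.Adjacent x.tail y.tail ∧
    D'.arrows = (D.arrows \ {x, y}) ∪ {⟨y.tail, x.head, x.sign⟩, ⟨x.tail, y.head, y.sign⟩}

/-- Self-crossing change: reverse an arrow with both endpoints on one strand and change its
sign. -/
def SelfCrossingChange {n : ℕ} (D D' : Gauss n) : Prop :=
  ∃ a ∈ D.arrows, a.tail.1 = a.head.1 ∧
    D'.arrows = (D.arrows \ {a}) ∪ {⟨a.head, a.tail, -a.sign⟩}

/-- One move. -/
def Move {n : ℕ} (D D' : Gauss n) : Prop :=
  Reparam D D' ∨ Reid1 D D' ∨ Reid2 D D' ∨ Reid3 D D' ∨ OverCommute D D' ∨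
    SelfCrossingChange D D'

/-- `D` and `D'` represent the same welded string link up to self-crossing change. -/
def Equiv {n : ℕ} (D D' : Gauss n) : Prop := Relation.EqvGen Move D D'

/-- `E` is obtained by stacking: first `D`, then `D'`. -/
def Stack {n : ℕ} (D D' E : Gauss n) : Prop :=
  ∃ A B : Gauss n, Reparam D A ∧ Reparam D' B ∧ E.arrows = A.arrows ∪ B.arrows ∧
    (∀ a ∈ A.arrows, a.tail.2 < 0 ∧ a.head.2 < 0) ∧ (∀ b ∈ B.arrows, 0 < b.tail.2 ∧ 0 < b.head.2)

/-- The product of the classes of `D` and `D'` is the class of the trivial string link. -/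
def MulEqOne {n : ℕ} (D D' : Gauss n) : Prop :=
  ∃ E O : Gauss n, Stack D D' E ∧ Equiv E O ∧ O.arrows = ∅

/-- The Gauss diagram of a monotone (pure braid) diagram, with the strands parametrised by the
height: every arrow is horizontal. -/
def Gauss.Horizontal {n : ℕ} (D : Gauss n) : Prop :=
  ∀ a ∈ D.arrows, a.tail.2 = a.head.2

end Pool.Agent.H394Z.WSL
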