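import Pool.Agent.H394Z.WSL.Defs

set_option autoImplicit false

namespace Pool.Agent.H394Z.WSL

def L (u w : Pt 2) : ℤ := if u.1 = w.1 ∧ u.2 < w.2 then 1 else 0

def c (a b : Arrow 2) : ℤ :=
  if a.tail.1 = a.head.1 ∧ b.tail.1 ≠ b.head.1 then L a.head b.head - L a.tail b.head
  else if a.tail.1 = 0 ∧ a.head.1 = 1 ∧ b.tail.1 = 1 ∧ b.head.1 = 0 then
    L a.tail b.head - L a.head b.tail else 0

def term (a b : Arrow 2) : ℤ := a.sign * b.sign * c a b

def v (S : Finset (Arrow 2)) : ℤ := ∑ a ∈ S, ∑ b ∈ S, term a b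

lemma v_union {T X : Finset (Arrow 2)} (h : Disjoint T X) :
    v (T ∪ X) = v T + ∑ k ∈ T, ∑ a ∈ X, (term a k + term k a) + v X := by
  unfold v
  simp only [Finset.sum_union h, Finset.sum_add_distrib]
  rw [Finset.sum_comm (s := X) (t := T)]
  ring

lemma v_move {S X X' : Finset (Arrow 2)} (hX : X ⊆ S) (hd : Disjoint (S \ X) X')
    (h1 : ∀ k ∈ S \ X, ∑ a ∈ X', (term a k + term k a) = ∑ a ∈ X, (term a k + term k a))
    (h2 : v X' = v X) : v ((S \ X) ∪ X') = v S := by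
  conv_rhs => rw [← Finset.sdiff_union_of_subset hX]
  rw [v_union hd, v_union Finset.sdiff_disjoint, h2, Finset.sum_congr rfl h1]

lemma adj_L {u v w : Pt 2} (h1 : u.1 = v.1) (h : ¬ Between u v w) (hu : w ≠ u) (hv : w ≠ v) :
    L w u = L w v ∧ L u w = L v w := by
  obtain ⟨ui, ux⟩ := u
  obtain ⟨vi, vx⟩ := v
  obtain ⟨wi, wx⟩ := w
  simp only at h1
  subst h1
  simp only [L, Between, ne_eq, Prod.mk.injEq] at *
  by_cases hi : wi = ui
  · subst hi
    simp only [true_and] at *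
    constructor <;> split_ifs <;> omega
  · have hi' : ¬ ui = wi := fun h => hi h.symm
    simp [hi, hi']

lemma adj_facts {D : Gauss 2} {u v : Pt 2} (h : D.Adjacent u v) {k : Arrow 2} (hk : k ∈ D.arrows)
    (h1 : k.tail ≠ u) (h2 : k.tail ≠ v) (h3 : k.head ≠ u) (h4 : k.head ≠ v) :
    (L k.tail u = L k.tail v ∧ L u k.tail = L v k.tail) ∧
      (L k.head u = L k.head v ∧ L u k.head = L v k.head) :=
  ⟨adj_L h.1 (h.2 k hk).1 h1 h2, adj_L h.1 (h.2 k hk).2 h3 h4⟩

lemma c_self_right {a b : Arrow 2} (h : b.tail.1 = b.head.1) : c a b = 0 := by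
  unfold c
  rw [if_neg (fun h' => h'.2 h), if_neg]
  rintro ⟨-, -, h1, h2⟩
  rw [h1, h2] at h
  exact absurd h (by decide)

lemma c_same {a b : Arrow 2} (h1 : a.tail.1 = b.tail.1) (h2 : a.head.1 = b.head.1) : c a b = 0 := by
  unfold c
  rw [if_neg (fun h' => h'.2 (by rw [← h1, ← h2]; exact h'.1)), if_neg]
  rintro ⟨h3, -, h4, -⟩
  rw [h3, h4] at h1
  exact absurd h1 (by decide)

lemma v_reparam {D D' : Gauss 2} (h : Reparam D D') : v D'.arrows = v D.arrows := by
  obtain ⟨φ, hφ, hD⟩ := h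
  have hpt : ∀ u w : Pt 2, ((u.1, φ u.1 u.2) : Pt 2) = (w.1, φ w.1 w.2) → u = w := by
    rintro ⟨i, x⟩ ⟨j, y⟩ hh
    simp only [Prod.mk.injEq] at hh ⊢
    obtain ⟨rfl, h2⟩ := hh
    exact ⟨rfl, (hφ i).injective h2⟩
  have hinj : Set.InjOn (fun a : Arrow 2 => (⟨(a.tail.1, φ a.tail.1 a.tail.2),
      (a.head.1, φ a.head.1 a.head.2), a.sign⟩ : Arrow 2)) D.arrows := by
    rintro ⟨a1, a2, a3⟩ - ⟨b1, b2, b3⟩ - hab
    simp only [Arrow.mk.injEq] at hab ⊢
    exact ⟨hpt _ _ hab.1, hpt _ _ hab.2.1, hab.2.2⟩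
  have hL : ∀ u w : Pt 2, L (u.1, φ u.1 u.2) (w.1, φ w.1 w.2) = L u w := by
    rintro ⟨i, x⟩ ⟨j, y⟩
    unfold L
    simp only
    by_cases hij : i = j
    · subst hij
      simp [(hφ i).lt_iff_lt]
    · simp [hij]
  unfold v
  rw [hD, Finset.sum_image hinj]
  refine Finset.sum_congr rfl fun a _ => ?_
  rw [Finset.sum_image hinj]
  refine Finset.sum_congr rfl fun b _ => ?_
  simp only [term, c, hL]

lemma v_reid1 {D D' : Gauss 2} (h : Reid1 D D') : v D'.arrows = v D.arrows := by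
  obtain ⟨a, ha, hadj, hD⟩ := h
  have := v_move (S := D.arrows) (X := {a}) (X' := ∅) (by simpa using ha) (by simp) ?_ ?_
  · rwa [Finset.union_empty, ← hD] at this
  · intro k hk
    simp only [Finset.mem_sdiff, Finset.mem_singleton] at hk
    have f := adj_facts hadj hk.1 (D.ends_ne k hk.1 a ha hk.2).1 (D.tail_ne_head k hk.1 a ha)
      (D.tail_ne_head a ha k hk.1).symm (D.ends_ne k hk.1 a ha hk.2).2
    have h1 : c a k = 0 := by
      unfold c
      rw [f.2.2, sub_self, if_neg (c := a.tail.1 = 0 ∧ _), ite_self]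
      rintro ⟨h1, h2, -⟩
      have := hadj.1
      rw [h1, h2] at this
      exact absurd this (by decide)
    simp [term, h1, c_self_right hadj.1]
  · simp [v, term, c_self_right hadj.1]

lemma v_reid2 {D D' : Gauss 2} (h : Reid2 D D') : v D'.arrows = v D.arrows := by
  obtain ⟨a, ha, b, hb, hs, ht, hh, hD⟩ := h
  have hab : a ≠ b := by
    rintro rfl
    rcases D.sign a ha with h | h <;> omega
  have := v_move (S := D.arrows) (X := {a, b}) (X' := ∅)
    (by intro k hk; simp only [Finset.mem_insert, Finset.mem_singleton] at hk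
        rcases hk with rfl | rfl <;> assumption) (by simp) ?_ ?_
  · rwa [Finset.union_empty, ← hD] at this
  · intro k hk
    simp only [Finset.mem_sdiff, Finset.mem_insert, Finset.mem_singleton, not_or] at hk
    obtain ⟨hk, k1, k2⟩ := hk
    have f1 := adj_facts ht hk (D.ends_ne k hk a ha k1).1 (D.ends_ne k hk b hb k2).1
      (D.tail_ne_head a ha k hk).symm (D.tail_ne_head b hb k hk).symm
    have f2 := adj_facts hh hk (D.tail_ne_head k hk a ha) (D.tail_ne_head k hk b hb)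
      (D.ends_ne k hk a ha k1).2 (D.ends_ne k hk b hb k2).2
    have h1 : c a k = c b k := by simp only [c, f1, f2, ht.1, hh.1]
    have h2 : c k a = c k b := by simp only [c, f1, f2, ht.1, hh.1]
    rw [Finset.sum_pair hab, Finset.sum_empty]
    simp only [term, h1, h2, hs]
    ring
  · simp [v, Finset.sum_pair hab, term, c_same ht.1 hh.1, c_same ht.1.symm hh.1.symm,
      c_same (a := a) rfl rfl, c_same (a := b) rfl rfl]

lemma c_tail_same {a b : Arrow 2} (h : a.tail.1 = b.tail.1) : c a b = 0 := by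
  unfold c
  split_ifs with h1 h2
  · have h3 : a.head.1 ≠ b.head.1 := fun h' => h1.2 (by rw [← h, ← h']; exact h1.1)
    have h4 : a.tail.1 ≠ b.head.1 := fun h' => h1.2 (by rw [← h]; exact h')
    simp [L, h3, h4]
  · rw [h2.1, h2.2.2.1] at h
    exact absurd h (by decide)
  · rfl

lemma v_oc {D D' : Gauss 2} (h : OverCommute D D') : v D'.arrows = v D.arrows := by
  obtain ⟨x, hx, y, hy, hxy, ht, hD⟩ := h
  have hne : (⟨y.tail, x.head, x.sign⟩ : Arrow 2) ≠ ⟨x.tail, y.head, y.sign⟩ := fun h =>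
    (D.ends_ne x hx y hy hxy).2 (Arrow.mk.inj h).2.1
  rw [hD]
  refine v_move (by intro k hk; simp only [Finset.mem_insert, Finset.mem_singleton] at hk
                    rcases hk with rfl | rfl <;> assumption) ?_ ?_ ?_
  · rw [Finset.disjoint_left]
    intro k hk hk'
    simp only [Finset.mem_sdiff, Finset.mem_insert, Finset.mem_singleton, not_or] at hk hk'
    obtain ⟨hk, k1, k2⟩ := hk
    rcases hk' with h | h
    · exact (D.ends_ne k hk x hx k1).2 (by rw [h])
    · exact (D.ends_ne k hk y hy k2).2 (by rw [h])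
  · intro k hk
    simp only [Finset.mem_sdiff, Finset.mem_insert, Finset.mem_singleton, not_or] at hk
    obtain ⟨hk, k1, k2⟩ := hk
    have f1 := adj_facts ht hk (D.ends_ne k hk x hx k1).1 (D.ends_ne k hk y hy k2).1
      (D.tail_ne_head x hx k hk).symm (D.tail_ne_head y hy k hk).symm
    rw [Finset.sum_pair hne, Finset.sum_pair hxy]
    simp only [term, c, f1, ht.1]
  · simp only [v, Finset.sum_pair hne, Finset.sum_pair hxy, term]
    rw [c_tail_same (a := x) rfl, c_tail_same (a := y) rfl, c_tail_same ht.1,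
      c_tail_same ht.1.symm, c_tail_same rfl, c_tail_same rfl, c_tail_same (by exact ht.1.symm),
      c_tail_same (by exact ht.1)]

lemma v_sc {D D' : Gauss 2} (h : SelfCrossingChange D D') : v D'.arrows = v D.arrows := by
  obtain ⟨a, ha, hs, hD⟩ := h
  rw [hD]
  refine v_move (by simpa using ha) ?_ ?_ ?_
  · rw [Finset.disjoint_left]
    intro k hk hk'
    simp only [Finset.mem_sdiff, Finset.mem_singleton] at hk hk'
    exact D.tail_ne_head k hk.1 a ha (congrArg Arrow.tail hk')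
  · intro k _
    simp only [Finset.sum_singleton, term]
    rw [c_self_right (a := k) hs, c_self_right (a := k) (by exact hs.symm)]
    have h1 : ¬ (a.tail.1 = 0 ∧ a.head.1 = 1 ∧ k.tail.1 = 1 ∧ k.head.1 = 0) := by
      rintro ⟨h1, h2, -⟩
      rw [h1, h2] at hs
      exact absurd hs (by decide)
    have h2 : ¬ (a.head.1 = 0 ∧ a.tail.1 = 1 ∧ k.tail.1 = 1 ∧ k.head.1 = 0) := by
      rintro ⟨h1, h2, -⟩
      rw [h1, h2] at hs
      exact absurd hs (by decide)
    simp only [c, if_neg h1, if_neg h2]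
    simp only [hs, true_and]
    split_ifs <;> ring
  · simp only [v, Finset.sum_singleton, term]
    rw [c_self_right hs, c_self_right (by exact hs.symm)]
    ring

lemma r3_sign (p q r sx sy sz : ℤ) (hx : sx = 1 ∨ sx = -1) (hy : sy = 1 ∨ sy = -1)
    (hz : sz = 1 ∨ sz = -1) (s1 : sz * p = sy * q) (s2 : sz * p = sx * r) :
    sx * sz * q = sy * sz * r := by
  rcases hx with rfl | rfl <;> rcases hy with rfl | rfl <;> rcases hz with rfl | rfl <;> omega

lemma L_flip {i : Fin 2} {a b : ℤ} (h : a ≠ b) :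
    L (i, b) (i, a) = L (i, a) (i, b) - ord (i, a) (i, b) := by
  simp only [L, ord, true_and]
  split_ifs <;> omega

lemma L_ne {i j : Fin 2} (h : i ≠ j) (a b : ℤ) : L (i, a) (j, b) = 0 := by simp [L, h]

lemma r3_core (T M B : Fin 2) (t1 t2 m1 m2 b1 b2 sx sy sz : ℤ) (hx : sx = 1 ∨ sx = -1)
    (hy : sy = 1 ∨ sy = -1) (hz : sz = 1 ∨ sz = -1) (hm : m1 ≠ m2) (hb : b1 ≠ b2)
    (h1 : L (T, t2) (B, b2) = L (T, t1) (B, b2)) (h2 : L (T, t1) (B, b1) = L (T, t1) (B, b2))
    (h3 : L (T, t2) (B, b1) = L (T, t1) (B, b2))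
    (h4 : L (B, b1) (T, t2) = L (B, b2) (T, t1))
    (h5 : L (B, b1) (M, m2) = L (B, b2) (M, m1))
    (h6 : L (M, m1) (B, b2) = L (M, m2) (B, b1))
    (s1 : sz * ord (T, t1) (T, t2) = sy * ord (M, m1) (M, m2))
    (s2 : sz * ord (T, t1) (T, t2) = sx * ord (B, b1) (B, b2)) :
    term ⟨(T, t2), (M, m2), sx⟩ ⟨(M, m1), (B, b1), sz⟩ +
      term ⟨(T, t1), (B, b2), sy⟩ ⟨(M, m1), (B, b1), sz⟩ +
      term ⟨(M, m1), (B, b1), sz⟩ ⟨(T, t2), (M, m2), sx⟩ +
      term ⟨(M, m1), (B, b1), sz⟩ ⟨(T, t1), (B, b2), sy⟩ =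
    term ⟨(T, t1), (M, m1), sx⟩ ⟨(M, m2), (B, b2), sz⟩ +
      term ⟨(T, t2), (B, b1), sy⟩ ⟨(M, m2), (B, b2), sz⟩ +
      term ⟨(M, m2), (B, b2), sz⟩ ⟨(T, t1), (M, m1), sx⟩ +
      term ⟨(M, m2), (B, b2), sz⟩ ⟨(T, t2), (B, b1), sy⟩ := by
  have key := r3_sign _ _ _ _ _ _ hx hy hz s1 s2
  have f1 := L_flip (i := M) hm
  have f2 := L_flip (i := B) hb
  have n01 : ∀ a b, L (0, a) (1, b) = 0 := L_ne (by decide)
  have n10 : ∀ a b, L (1, a) (0, b) = 0 := L_ne (by decide)
  have two : ∀ i : Fin 2, i = 0 ∨ i = 1 := by decide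
  clear s1 s2 hx hy hz hm hb
  rcases two T with rfl | rfl <;> rcases two M with rfl | rfl <;> rcases two B with rfl | rfl <;>
    simp only [term, c, ne_eq, not_true_eq_false, and_false, false_and, if_false, zero_ne_one,
      one_ne_zero, not_false_eq_true, and_self, if_true, n01, n10, h1, h2, h3, h4, h5, h6, f1, f2,
      and_true] <;> linarith

lemma v_reid3 {D D' : Gauss 2} (h : Reid3 D D') : v D'.arrows = v D.arrows := by
  obtain ⟨x, hx, y, hy, z, hz, hxy, hxz, hyz, hT, hM, hB, s1, s2, hD⟩ := h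
  have e1 := D.ends_ne x hx y hy hxy
  have e2 := D.ends_ne x hx z hz hxz
  have e3 := D.ends_ne y hy z hz hyz
  have th := D.tail_ne_head
  have d1 : (⟨y.tail, z.tail, x.sign⟩ : Arrow 2) ≠ ⟨x.tail, z.head, y.sign⟩ := fun h =>
    e1.1 (congrArg Arrow.tail h).symm
  have d2 : (⟨y.tail, z.tail, x.sign⟩ : Arrow 2) ≠ ⟨x.head, y.head, z.sign⟩ := fun h =>
    th y hy x hx (congrArg Arrow.tail h)
  have d3 : (⟨x.tail, z.head, y.sign⟩ : Arrow 2) ≠ ⟨x.head, y.head, z.sign⟩ := fun h =>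
    th x hx x hx (congrArg Arrow.tail h)
  have sum3 : ∀ (a b c : Arrow 2) (f : Arrow 2 → ℤ), a ≠ b → a ≠ c → b ≠ c →
      ∑ k ∈ ({a, b, c} : Finset (Arrow 2)), f k = f a + f b + f c := by
    intro a b c f h1 h2 h3
    rw [Finset.sum_insert (by simp [h1, h2]), Finset.sum_pair h3, add_assoc]
  rw [hD]
  refine v_move (by intro k hk; simp only [Finset.mem_insert, Finset.mem_singleton] at hk
                    rcases hk with rfl | rfl | rfl <;> assumption) ?_ ?_ ?_
  · rw [Finset.disjoint_left]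
    intro k hk hk'
    simp only [Finset.mem_sdiff, Finset.mem_insert, Finset.mem_singleton, not_or] at hk hk'
    obtain ⟨hk, k1, k2, k3⟩ := hk
    rcases hk' with h | h | h
    · exact (D.ends_ne k hk y hy k2).1 (by rw [h])
    · exact (D.ends_ne k hk x hx k1).1 (by rw [h])
    · exact (D.ends_ne k hk y hy k2).2 (by rw [h])
  · intro k hk
    simp only [Finset.mem_sdiff, Finset.mem_insert, Finset.mem_singleton, not_or] at hk
    obtain ⟨hk, k1, k2, k3⟩ := hk
    have f1 := adj_facts hT hk (D.ends_ne k hk x hx k1).1 (D.ends_ne k hk y hy k2).1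
      (th x hx k hk).symm (th y hy k hk).symm
    have f2 := adj_facts hM hk (th k hk x hx) (D.ends_ne k hk z hz k3).1
      (D.ends_ne k hk x hx k1).2 (th z hz k hk).symm
    have f3 := adj_facts hB hk (th k hk y hy) (th k hk z hz)
      (D.ends_ne k hk y hy k2).2 (D.ends_ne k hk z hz k3).2
    rw [sum3 _ _ _ _ d1 d2 d3, sum3 _ _ _ _ hxy hxz hyz]
    simp only [term, c, f1, f2, f3, hT.1, hM.1, hB.1]
  · unfold v
    simp only [sum3 _ _ _ _ d1 d2 d3, sum3 _ _ _ _ hxy hxz hyz]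
    have z0 : ∀ a b : Arrow 2, a.tail.1 = b.tail.1 → term a b = 0 := fun a b h => by
      rw [term, c_tail_same h, mul_zero]
    rw [z0 x x rfl, z0 y y rfl, z0 z z rfl, z0 x y hT.1, z0 y x hT.1.symm,
      z0 ⟨y.tail, z.tail, x.sign⟩ ⟨y.tail, z.tail, x.sign⟩ rfl,
      z0 ⟨x.tail, z.head, y.sign⟩ ⟨x.tail, z.head, y.sign⟩ rfl,
      z0 ⟨x.head, y.head, z.sign⟩ ⟨x.head, y.head, z.sign⟩ rfl,
      z0 ⟨y.tail, z.tail, x.sign⟩ ⟨x.tail, z.head, y.sign⟩ hT.1.symm,
      z0 ⟨x.tail, z.head, y.sign⟩ ⟨y.tail, z.tail, x.sign⟩ hT.1]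
    have sx := D.sign x hx
    have sy := D.sign y hy
    have sz := D.sign z hz
    have g1 := adj_L hT.1 (hT.2 z hz).2 (th x hx z hz).symm (th y hy z hz).symm
    have g2 := adj_L hT.1 (hT.2 y hy).2 (th x hx y hy).symm (th y hy y hy).symm
    have g3 := adj_L hB.1 (hB.2 x hx).1 (th x hx y hy) (th x hx z hz)
    have g4 := adj_L hM.1 (hM.2 y hy).2 e1.2.symm (th z hz y hy).symm
    have g5 := adj_L hB.1 (hB.2 x hx).2 e1.2 e2.2
    have n1 := th z hz x hx
    have n2 := e3.2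
    have eT := hT.1
    have eM := hM.1
    have eB := hB.1
    obtain ⟨⟨T, t1⟩, ⟨M, m1⟩, sx'⟩ := x
    obtain ⟨⟨T', t2⟩, ⟨B, b1⟩, sy'⟩ := y
    obtain ⟨⟨M', m2⟩, ⟨B', b2⟩, sz'⟩ := z
    simp only at eT eM eB
    subst eT eM eB
    simp only at g1 g2 g3 g4 g5 n1 n2 sx sy sz s1 s2 ⊢
    have := r3_core T M B t1 t2 m1 m2 b1 b2 sx' sy' sz' sx sy sz
      (fun h => n1 (by rw [h])) (fun h => n2 (by rw [h])) g1.2.symm g3.1
      (g2.2.symm.trans g3.1) (g2.1.symm.trans g3.2) (g4.1.symm.trans g5.2)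
      (g5.1.symm.trans g4.2) s1 s2
    linarith

lemma v_equiv {D D' : Gauss 2} (h : Equiv D D') : v D'.arrows = v D.arrows := by
  induction h with
  | rel _ _ h1 =>
    rcases h1 with h | h | h | h | h | h
    exacts [v_reparam h, v_reid1 h, v_reid2 h, v_reid3 h, v_oc h, v_sc h]
  | refl => rfl
  | symm _ _ _ ih => exact ih.symm
  | trans _ _ _ _ _ ih1 ih2 => exact ih2.trans ih1

lemma v_horizontal {D : Gauss 2} (h : D.Horizontal) : v D.arrows = 0 := by
  refine Finset.sum_eq_zero fun a ha => Finset.sum_eq_zero fun b hb => ?_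
  have h1 := h a ha
  have h2 := h b hb
  have h3 : a.tail.1 ≠ a.head.1 := fun h' => D.tail_ne_head a ha a ha (Prod.ext h' h1)
  have : c a b = 0 := by
    unfold c
    rw [if_neg fun h' => h3 h'.1]
    split_ifs with h4
    · simp [L, h4.1, h4.2.1, h4.2.2.1, h4.2.2.2, h1, h2]
    · rfl
  rw [term, this, mul_zero]

end Pool.Agent.H394Z.WSL
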