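import Pool.Agent.H394Z.WSL.Defs

set_option autoImplicit false

namespace Pool.Agent.H394Z.WSL

instance {n : ℕ} (u v w : Pt n) : Decidable (Between u v w) := by
  unfold Between; infer_instance

instance {n : ℕ} (D : Gauss n) (u v : Pt n) : Decidable (D.Adjacent u v) := by
  unfold Gauss.Adjacent; infer_instance

/-- The unit. -/
def Z (e : ℤ) (he : e = 1 ∨ e = -1) : Gauss 2 :=
  ⟨{⟨(0, 10), (0, 30), e⟩, ⟨(1, 10), (0, 20), 1⟩, ⟨(1, 20), (0, 40), -1⟩},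
    by rcases he with rfl | rfl <;> decide, by rcases he with rfl | rfl <;> decide,
    by rcases he with rfl | rfl <;> decide⟩

def Zs (e : ℤ) (he : e = 1 ∨ e = -1) : Gauss 2 :=
  ⟨{⟨(0, -90), (0, -70), e⟩, ⟨(1, -90), (0, -80), 1⟩, ⟨(1, -80), (0, -60), -1⟩},
    by rcases he with rfl | rfl <;> decide, by rcases he with rfl | rfl <;> decide,
    by rcases he with rfl | rfl <;> decide⟩

def p0 : Gauss 2 :=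
  ⟨{⟨(0, -90), (0, -70), 1⟩, ⟨(1, -90), (0, -80), 1⟩, ⟨(1, -80), (0, -60), -1⟩, ⟨(0, 10), (0, 30), -1⟩, ⟨(1, 10), (0, 20), 1⟩, ⟨(1, 20), (0, 40), -1⟩},
    by decide, by decide, by decide⟩

def p1 : Gauss 2 :=
  ⟨{⟨(0, -70), (0, -90), -1⟩, ⟨(1, -90), (0, -80), 1⟩, ⟨(1, -80), (0, -60), -1⟩, ⟨(0, 10), (0, 30), -1⟩, ⟨(1, 10), (0, 20), 1⟩, ⟨(1, 20), (0, 40), -1⟩},
    by decide, by decide, by decide⟩

def p2 : Gauss 2 :=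
  ⟨{⟨(0, -70), (0, -90), -1⟩, ⟨(1, -90), (0, -80), 1⟩, ⟨(1, -80), (0, -60), -1⟩, ⟨(0, 10), (0, 30), -1⟩, ⟨(1, 10), (0, 20), 1⟩, ⟨(1, 20), (0, 40), -1⟩, ⟨(1, -78), (0, 23), 1⟩, ⟨(1, -76), (0, 26), -1⟩},
    by decide, by decide, by decide⟩

def p3 : Gauss 2 :=
  ⟨{⟨(0, -70), (0, -90), -1⟩, ⟨(1, -90), (0, -80), 1⟩, ⟨(1, -80), (0, -60), -1⟩, ⟨(0, 10), (0, 30), -1⟩, ⟨(1, 10), (0, 20), 1⟩, ⟨(1, 20), (0, 40), -1⟩, ⟨(1, -76), (0, 23), 1⟩, ⟨(1, -78), (0, 26), -1⟩},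
    by decide, by decide, by decide⟩

def p4 : Gauss 2 :=
  ⟨{⟨(0, -70), (0, -90), -1⟩, ⟨(1, -90), (0, -80), 1⟩, ⟨(1, -78), (0, 10), -1⟩, ⟨(0, -60), (0, 26), -1⟩, ⟨(1, 10), (0, 20), 1⟩, ⟨(1, 20), (0, 40), -1⟩, ⟨(1, -76), (0, 23), 1⟩, ⟨(1, -80), (0, 30), -1⟩},
    by decide, by decide, by decide⟩

def p5 : Gauss 2 :=
  ⟨{⟨(0, -60), (0, -90), -1⟩, ⟨(1, -90), (0, -80), 1⟩, ⟨(1, -78), (0, 10), -1⟩, ⟨(0, -70), (0, 26), -1⟩, ⟨(1, 10), (0, 20), 1⟩, ⟨(1, 20), (0, 40), -1⟩, ⟨(1, -76), (0, 23), 1⟩, ⟨(1, -80), (0, 30), -1⟩},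
    by decide, by decide, by decide⟩

def p6 : Gauss 2 :=
  ⟨{⟨(0, -60), (0, -90), -1⟩, ⟨(1, -90), (0, -80), 1⟩, ⟨(1, -76), (0, 10), -1⟩, ⟨(0, -70), (0, 26), -1⟩, ⟨(1, 10), (0, 20), 1⟩, ⟨(1, 20), (0, 40), -1⟩, ⟨(1, -78), (0, 23), 1⟩, ⟨(1, -80), (0, 30), -1⟩},
    by decide, by decide, by decide⟩

def p7 : Gauss 2 :=
  ⟨{⟨(0, -60), (0, -90), -1⟩, ⟨(1, -90), (0, -80), 1⟩, ⟨(1, -76), (0, 10), -1⟩, ⟨(0, -70), (0, 26), -1⟩, ⟨(1, 10), (0, 20), 1⟩, ⟨(1, 20), (0, 40), -1⟩, ⟨(1, -80), (0, 23), 1⟩, ⟨(1, -78), (0, 30), -1⟩},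
    by decide, by decide, by decide⟩

def p8 : Gauss 2 :=
  ⟨{⟨(0, -60), (0, -90), -1⟩, ⟨(1, -80), (0, -80), 1⟩, ⟨(1, -76), (0, 10), -1⟩, ⟨(0, -70), (0, 26), -1⟩, ⟨(1, 10), (0, 20), 1⟩, ⟨(1, 20), (0, 40), -1⟩, ⟨(1, -90), (0, 23), 1⟩, ⟨(1, -78), (0, 30), -1⟩},
    by decide, by decide, by decide⟩

def p9 : Gauss 2 :=
  ⟨{⟨(0, -60), (0, -90), -1⟩, ⟨(1, -90), (0, -70), 1⟩, ⟨(1, -76), (0, 10), -1⟩, ⟨(0, -80), (0, 23), -1⟩, ⟨(1, 10), (0, 20), 1⟩, ⟨(1, 20), (0, 40), -1⟩, ⟨(1, -80), (0, 26), 1⟩, ⟨(1, -78), (0, 30), -1⟩},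
    by decide, by decide, by decide⟩

def p10 : Gauss 2 :=
  ⟨{⟨(0, -60), (0, -90), -1⟩, ⟨(1, -90), (0, -70), 1⟩, ⟨(1, -76), (0, 10), -1⟩, ⟨(0, -80), (0, 23), -1⟩, ⟨(1, 10), (0, 20), 1⟩, ⟨(1, 20), (0, 40), -1⟩},
    by decide, by decide, by decide⟩

def p11 : Gauss 2 :=
  ⟨{⟨(0, -90), (0, -60), 1⟩, ⟨(1, -90), (0, -70), 1⟩, ⟨(1, -76), (0, 10), -1⟩, ⟨(0, -80), (0, 23), -1⟩, ⟨(1, 10), (0, 20), 1⟩, ⟨(1, 20), (0, 40), -1⟩},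
    by decide, by decide, by decide⟩

def p12 : Gauss 2 :=
  ⟨{⟨(0, -90), (0, -60), 1⟩, ⟨(1, -90), (0, -70), 1⟩, ⟨(0, -80), (0, 23), -1⟩, ⟨(1, 20), (0, 40), -1⟩},
    by decide, by decide, by decide⟩

def p13 : Gauss 2 :=
  ⟨{⟨(1, -90), (0, -70), 1⟩, ⟨(1, 20), (0, 40), -1⟩},
    by decide, by decide, by decide⟩

def p14 : Gauss 2 :=
  ⟨∅,
    by decide, by decide, by decide⟩

lemma p_step0 : Equiv p0 p1 :=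
  Relation.EqvGen.rel _ _ (Or.inr (Or.inr (Or.inr (Or.inr (Or.inr ⟨⟨(0, -90), (0, -70), 1⟩, by decide, by decide⟩)))))

lemma p_step1 : Equiv p1 p2 :=
  Relation.EqvGen.symm _ _ (Relation.EqvGen.rel _ _ (Or.inr (Or.inr (Or.inl ⟨⟨(1, -78), (0, 23), 1⟩, by decide, ⟨(1, -76), (0, 26), -1⟩, by decide, by decide⟩))))

lemma p_step2 : Equiv p2 p3 :=
  Relation.EqvGen.rel _ _ (Or.inr (Or.inr (Or.inr (Or.inr (Or.inl ⟨⟨(1, -76), (0, 26), -1⟩, by decide, ⟨(1, -78), (0, 23), 1⟩, by decide, by decide⟩)))))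

lemma p_step3 : Equiv p3 p4 :=
  Relation.EqvGen.rel _ _ (Or.inr (Or.inr (Or.inr (Or.inl ⟨⟨(1, -80), (0, -60), -1⟩, by decide, ⟨(1, -78), (0, 26), -1⟩, by decide, ⟨(0, 10), (0, 30), -1⟩, by decide, by decide⟩))))

lemma p_step4 : Equiv p4 p5 :=
  Relation.EqvGen.rel _ _ (Or.inr (Or.inr (Or.inr (Or.inr (Or.inl ⟨⟨(0, -70), (0, -90), -1⟩, by decide, ⟨(0, -60), (0, 26), -1⟩, by decide, by decide⟩)))))

lemma p_step5 : Equiv p5 p6 :=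
  Relation.EqvGen.rel _ _ (Or.inr (Or.inr (Or.inr (Or.inr (Or.inl ⟨⟨(1, -76), (0, 23), 1⟩, by decide, ⟨(1, -78), (0, 10), -1⟩, by decide, by decide⟩)))))

lemma p_step6 : Equiv p6 p7 :=
  Relation.EqvGen.rel _ _ (Or.inr (Or.inr (Or.inr (Or.inr (Or.inl ⟨⟨(1, -78), (0, 23), 1⟩, by decide, ⟨(1, -80), (0, 30), -1⟩, by decide, by decide⟩)))))

lemma p_step7 : Equiv p7 p8 :=
  Relation.EqvGen.rel _ _ (Or.inr (Or.inr (Or.inr (Or.inr (Or.inl ⟨⟨(1, -80), (0, 23), 1⟩, by decide, ⟨(1, -90), (0, -80), 1⟩, by decide, by decide⟩)))))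

lemma p_step8 : Equiv p8 p9 :=
  Relation.EqvGen.rel _ _ (Or.inr (Or.inr (Or.inr (Or.inl ⟨⟨(1, -80), (0, -80), 1⟩, by decide, ⟨(1, -90), (0, 23), 1⟩, by decide, ⟨(0, -70), (0, 26), -1⟩, by decide, by decide⟩))))

lemma p_step9 : Equiv p9 p10 :=
  Relation.EqvGen.rel _ _ (Or.inr (Or.inr (Or.inl ⟨⟨(1, -80), (0, 26), 1⟩, by decide, ⟨(1, -78), (0, 30), -1⟩, by decide, by decide⟩)))

lemma p_step10 : Equiv p10 p11 :=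
  Relation.EqvGen.rel _ _ (Or.inr (Or.inr (Or.inr (Or.inr (Or.inr ⟨⟨(0, -60), (0, -90), -1⟩, by decide, by decide⟩)))))

lemma p_step11 : Equiv p11 p12 :=
  Relation.EqvGen.rel _ _ (Or.inr (Or.inr (Or.inl ⟨⟨(1, -76), (0, 10), -1⟩, by decide, ⟨(1, 10), (0, 20), 1⟩, by decide, by decide⟩)))

lemma p_step12 : Equiv p12 p13 :=
  Relation.EqvGen.rel _ _ (Or.inr (Or.inr (Or.inl ⟨⟨(0, -90), (0, -60), 1⟩, by decide, ⟨(0, -80), (0, 23), -1⟩, by decide, by decide⟩)))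

lemma p_step13 : Equiv p13 p14 :=
  Relation.EqvGen.rel _ _ (Or.inr (Or.inr (Or.inl ⟨⟨(1, -90), (0, -70), 1⟩, by decide, ⟨(1, 20), (0, 40), -1⟩, by decide, by decide⟩)))

lemma p_all : Equiv p0 p14 :=
  Relation.EqvGen.trans _ _ _ p_step0
    (Relation.EqvGen.trans _ _ _ p_step1
    (Relation.EqvGen.trans _ _ _ p_step2
    (Relation.EqvGen.trans _ _ _ p_step3
    (Relation.EqvGen.trans _ _ _ p_step4
    (Relation.EqvGen.trans _ _ _ p_step5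
    (Relation.EqvGen.trans _ _ _ p_step6
    (Relation.EqvGen.trans _ _ _ p_step7
    (Relation.EqvGen.trans _ _ _ p_step8
    (Relation.EqvGen.trans _ _ _ p_step9
    (Relation.EqvGen.trans _ _ _ p_step10
    (Relation.EqvGen.trans _ _ _ p_step11
    (Relation.EqvGen.trans _ _ _ p_step12
    (p_step13)))))))))))))

def m0 : Gauss 2 :=
  ⟨{⟨(0, -90), (0, -70), -1⟩, ⟨(1, -90), (0, -80), 1⟩, ⟨(1, -80), (0, -60), -1⟩, ⟨(0, 10), (0, 30), 1⟩, ⟨(1, 10), (0, 20), 1⟩, ⟨(1, 20), (0, 40), -1⟩},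
    by decide, by decide, by decide⟩

def m1 : Gauss 2 :=
  ⟨{⟨(0, -70), (0, -90), 1⟩, ⟨(1, -90), (0, -80), 1⟩, ⟨(1, -80), (0, -60), -1⟩, ⟨(0, 10), (0, 30), 1⟩, ⟨(1, 10), (0, 20), 1⟩, ⟨(1, 20), (0, 40), -1⟩},
    by decide, by decide, by decide⟩

def m2 : Gauss 2 :=
  ⟨{⟨(0, -70), (0, -90), 1⟩, ⟨(1, -90), (0, -80), 1⟩, ⟨(1, -80), (0, -60), -1⟩, ⟨(0, 10), (0, 30), 1⟩, ⟨(1, 10), (0, 20), 1⟩, ⟨(1, 20), (0, 40), -1⟩, ⟨(1, -76), (0, 23), 1⟩, ⟨(1, -78), (0, 26), -1⟩},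
    by decide, by decide, by decide⟩

def m3 : Gauss 2 :=
  ⟨{⟨(0, -70), (0, -90), 1⟩, ⟨(1, -90), (0, -80), 1⟩, ⟨(1, -78), (0, -60), -1⟩, ⟨(0, 10), (0, 30), 1⟩, ⟨(1, 10), (0, 20), 1⟩, ⟨(1, 20), (0, 40), -1⟩, ⟨(1, -76), (0, 23), 1⟩, ⟨(1, -80), (0, 26), -1⟩},
    by decide, by decide, by decide⟩

def m4 : Gauss 2 :=
  ⟨{⟨(0, -70), (0, -90), 1⟩, ⟨(1, -90), (0, -80), 1⟩, ⟨(1, -80), (0, 10), -1⟩, ⟨(0, -60), (0, 26), 1⟩, ⟨(1, 10), (0, 20), 1⟩, ⟨(1, 20), (0, 40), -1⟩, ⟨(1, -76), (0, 23), 1⟩, ⟨(1, -78), (0, 30), -1⟩},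
    by decide, by decide, by decide⟩

def m5 : Gauss 2 :=
  ⟨{⟨(0, -60), (0, -90), 1⟩, ⟨(1, -90), (0, -80), 1⟩, ⟨(1, -80), (0, 10), -1⟩, ⟨(0, -70), (0, 26), 1⟩, ⟨(1, 10), (0, 20), 1⟩, ⟨(1, 20), (0, 40), -1⟩, ⟨(1, -76), (0, 23), 1⟩, ⟨(1, -78), (0, 30), -1⟩},
    by decide, by decide, by decide⟩

def m6 : Gauss 2 :=
  ⟨{⟨(0, -60), (0, -90), 1⟩, ⟨(1, -90), (0, -80), 1⟩, ⟨(1, -80), (0, 10), -1⟩, ⟨(0, -70), (0, 26), 1⟩, ⟨(1, 10), (0, 20), 1⟩, ⟨(1, 20), (0, 40), -1⟩, ⟨(1, -78), (0, 23), 1⟩, ⟨(1, -76), (0, 30), -1⟩},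
    by decide, by decide, by decide⟩

def m7 : Gauss 2 :=
  ⟨{⟨(0, -60), (0, -90), 1⟩, ⟨(1, -90), (0, -80), 1⟩, ⟨(1, -78), (0, 10), -1⟩, ⟨(0, -70), (0, 26), 1⟩, ⟨(1, 10), (0, 20), 1⟩, ⟨(1, 20), (0, 40), -1⟩, ⟨(1, -80), (0, 23), 1⟩, ⟨(1, -76), (0, 30), -1⟩},
    by decide, by decide, by decide⟩

def m8 : Gauss 2 :=
  ⟨{⟨(0, -60), (0, -90), 1⟩, ⟨(1, -80), (0, -70), 1⟩, ⟨(1, -78), (0, 10), -1⟩, ⟨(0, -80), (0, 23), 1⟩, ⟨(1, 10), (0, 20), 1⟩, ⟨(1, 20), (0, 40), -1⟩, ⟨(1, -90), (0, 26), 1⟩, ⟨(1, -76), (0, 30), -1⟩},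
    by decide, by decide, by decide⟩

def m9 : Gauss 2 :=
  ⟨{⟨(0, -60), (0, -90), 1⟩, ⟨(1, -80), (0, -70), 1⟩, ⟨(1, -76), (0, 10), -1⟩, ⟨(0, -80), (0, 23), 1⟩, ⟨(1, 10), (0, 20), 1⟩, ⟨(1, 20), (0, 40), -1⟩, ⟨(1, -90), (0, 26), 1⟩, ⟨(1, -78), (0, 30), -1⟩},
    by decide, by decide, by decide⟩

def m10 : Gauss 2 :=
  ⟨{⟨(0, -60), (0, -90), 1⟩, ⟨(1, -78), (0, -70), 1⟩, ⟨(1, -76), (0, 10), -1⟩, ⟨(0, -80), (0, 23), 1⟩, ⟨(1, 10), (0, 20), 1⟩, ⟨(1, 20), (0, 40), -1⟩, ⟨(1, -90), (0, 26), 1⟩, ⟨(1, -80), (0, 30), -1⟩},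
    by decide, by decide, by decide⟩

def m11 : Gauss 2 :=
  ⟨{⟨(0, -60), (0, -90), 1⟩, ⟨(1, -78), (0, -70), 1⟩, ⟨(1, -76), (0, 10), -1⟩, ⟨(0, -80), (0, 23), 1⟩, ⟨(1, 10), (0, 20), 1⟩, ⟨(1, 20), (0, 40), -1⟩},
    by decide, by decide, by decide⟩

def m12 : Gauss 2 :=
  ⟨{⟨(0, -90), (0, -60), -1⟩, ⟨(1, -78), (0, -70), 1⟩, ⟨(1, -76), (0, 10), -1⟩, ⟨(0, -80), (0, 23), 1⟩, ⟨(1, 10), (0, 20), 1⟩, ⟨(1, 20), (0, 40), -1⟩},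
    by decide, by decide, by decide⟩

def m13 : Gauss 2 :=
  ⟨{⟨(0, -90), (0, -60), -1⟩, ⟨(1, -78), (0, -70), 1⟩, ⟨(0, -80), (0, 23), 1⟩, ⟨(1, 20), (0, 40), -1⟩},
    by decide, by decide, by decide⟩

def m14 : Gauss 2 :=
  ⟨{⟨(1, -78), (0, -70), 1⟩, ⟨(1, 20), (0, 40), -1⟩},
    by decide, by decide, by decide⟩

def m15 : Gauss 2 :=
  ⟨∅,
    by decide, by decide, by decide⟩

lemma m_step0 : Equiv m0 m1 :=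
  Relation.EqvGen.rel _ _ (Or.inr (Or.inr (Or.inr (Or.inr (Or.inr ⟨⟨(0, -90), (0, -70), -1⟩, by decide, by decide⟩)))))

lemma m_step1 : Equiv m1 m2 :=
  Relation.EqvGen.symm _ _ (Relation.EqvGen.rel _ _ (Or.inr (Or.inr (Or.inl ⟨⟨(1, -76), (0, 23), 1⟩, by decide, ⟨(1, -78), (0, 26), -1⟩, by decide, by decide⟩))))

lemma m_step2 : Equiv m2 m3 :=
  Relation.EqvGen.rel _ _ (Or.inr (Or.inr (Or.inr (Or.inr (Or.inl ⟨⟨(1, -78), (0, 26), -1⟩, by decide, ⟨(1, -80), (0, -60), -1⟩, by decide, by decide⟩)))))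

lemma m_step3 : Equiv m3 m4 :=
  Relation.EqvGen.rel _ _ (Or.inr (Or.inr (Or.inr (Or.inl ⟨⟨(1, -78), (0, -60), -1⟩, by decide, ⟨(1, -80), (0, 26), -1⟩, by decide, ⟨(0, 10), (0, 30), 1⟩, by decide, by decide⟩))))

lemma m_step4 : Equiv m4 m5 :=
  Relation.EqvGen.rel _ _ (Or.inr (Or.inr (Or.inr (Or.inr (Or.inl ⟨⟨(0, -70), (0, -90), 1⟩, by decide, ⟨(0, -60), (0, 26), 1⟩, by decide, by decide⟩)))))

lemma m_step5 : Equiv m5 m6 :=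
  Relation.EqvGen.rel _ _ (Or.inr (Or.inr (Or.inr (Or.inr (Or.inl ⟨⟨(1, -76), (0, 23), 1⟩, by decide, ⟨(1, -78), (0, 30), -1⟩, by decide, by decide⟩)))))

lemma m_step6 : Equiv m6 m7 :=
  Relation.EqvGen.rel _ _ (Or.inr (Or.inr (Or.inr (Or.inr (Or.inl ⟨⟨(1, -78), (0, 23), 1⟩, by decide, ⟨(1, -80), (0, 10), -1⟩, by decide, by decide⟩)))))

lemma m_step7 : Equiv m7 m8 :=
  Relation.EqvGen.rel _ _ (Or.inr (Or.inr (Or.inr (Or.inl ⟨⟨(1, -90), (0, -80), 1⟩, by decide, ⟨(1, -80), (0, 23), 1⟩, by decide, ⟨(0, -70), (0, 26), 1⟩, by decide, by decide⟩))))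

lemma m_step8 : Equiv m8 m9 :=
  Relation.EqvGen.rel _ _ (Or.inr (Or.inr (Or.inr (Or.inr (Or.inl ⟨⟨(1, -76), (0, 30), -1⟩, by decide, ⟨(1, -78), (0, 10), -1⟩, by decide, by decide⟩)))))

lemma m_step9 : Equiv m9 m10 :=
  Relation.EqvGen.rel _ _ (Or.inr (Or.inr (Or.inr (Or.inr (Or.inl ⟨⟨(1, -78), (0, 30), -1⟩, by decide, ⟨(1, -80), (0, -70), 1⟩, by decide, by decide⟩)))))

lemma m_step10 : Equiv m10 m11 :=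
  Relation.EqvGen.rel _ _ (Or.inr (Or.inr (Or.inl ⟨⟨(1, -90), (0, 26), 1⟩, by decide, ⟨(1, -80), (0, 30), -1⟩, by decide, by decide⟩)))

lemma m_step11 : Equiv m11 m12 :=
  Relation.EqvGen.rel _ _ (Or.inr (Or.inr (Or.inr (Or.inr (Or.inr ⟨⟨(0, -60), (0, -90), 1⟩, by decide, by decide⟩)))))

lemma m_step12 : Equiv m12 m13 :=
  Relation.EqvGen.rel _ _ (Or.inr (Or.inr (Or.inl ⟨⟨(1, -76), (0, 10), -1⟩, by decide, ⟨(1, 10), (0, 20), 1⟩, by decide, by decide⟩)))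

lemma m_step13 : Equiv m13 m14 :=
  Relation.EqvGen.rel _ _ (Or.inr (Or.inr (Or.inl ⟨⟨(0, -90), (0, -60), -1⟩, by decide, ⟨(0, -80), (0, 23), 1⟩, by decide, by decide⟩)))

lemma m_step14 : Equiv m14 m15 :=
  Relation.EqvGen.rel _ _ (Or.inr (Or.inr (Or.inl ⟨⟨(1, -78), (0, -70), 1⟩, by decide, ⟨(1, 20), (0, 40), -1⟩, by decide, by decide⟩)))

lemma m_all : Equiv m0 m15 :=
  Relation.EqvGen.trans _ _ _ m_step0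
    (Relation.EqvGen.trans _ _ _ m_step1
    (Relation.EqvGen.trans _ _ _ m_step2
    (Relation.EqvGen.trans _ _ _ m_step3
    (Relation.EqvGen.trans _ _ _ m_step4
    (Relation.EqvGen.trans _ _ _ m_step5
    (Relation.EqvGen.trans _ _ _ m_step6
    (Relation.EqvGen.trans _ _ _ m_step7
    (Relation.EqvGen.trans _ _ _ m_step8
    (Relation.EqvGen.trans _ _ _ m_step9
    (Relation.EqvGen.trans _ _ _ m_step10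
    (Relation.EqvGen.trans _ _ _ m_step11
    (Relation.EqvGen.trans _ _ _ m_step12
    (Relation.EqvGen.trans _ _ _ m_step13
    (m_step14))))))))))))))

lemma shift_mono : StrictMono fun x : ℤ => x - 100 := fun _ _ h => by simpa using h

lemma mul_one_p : MulEqOne (Z 1 (Or.inl rfl)) (Z (-1) (Or.inr rfl)) :=
  ⟨p0, p14, ⟨Zs 1 (Or.inl rfl), Z (-1) (Or.inr rfl),
    ⟨fun _ x => x - 100, fun _ => shift_mono, by decide⟩,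
    ⟨fun _ x => x, fun _ => strictMono_id, by decide⟩, by decide, by decide, by decide⟩,
    p_all, rfl⟩

lemma mul_one_m : MulEqOne (Z (-1) (Or.inr rfl)) (Z 1 (Or.inl rfl)) :=
  ⟨m0, m15, ⟨Zs (-1) (Or.inr rfl), Z 1 (Or.inl rfl),
    ⟨fun _ x => x - 100, fun _ => shift_mono, by decide⟩,
    ⟨fun _ x => x, fun _ => strictMono_id, by decide⟩, by decide, by decide, by decide⟩,
    m_all, rfl⟩

end Pool.Agent.H394Z.WSL
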